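import Pool.Agent.Lib.MP_fb3619_al.H95.Step

/-! GENS (3.2): elements of `Nn v x` move `y` to an equivalent point. -/

universe u

namespace Pool.Agent.FourGp.H95

open Equiv

theorem gens_gen {P : Type u} {g : Inc P} (h : g.IsGeo) {v x w₁ w₂ n m : P}
    {φ : Perm P × Perm P} (hi : g.Ind v x w₁ w₂ n m φ) {y : P} (hy : g.st y x) :
    g.sim y (φ.1 y) := by
  obtain ⟨t, ht, hs, hp, hcl, hcr, hu⟩ := num h
  obtain ⟨ha, htt, hind⟩ := hi
  have sy := h.perp_symm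
  have i1 := hp _ _ ha.vx
  have i2 := hp _ _ ha.xw₁
  have i3 := hp _ _ ha.xw₂
  have i4 := hp _ _ ha.vn
  have i5 := hp _ _ ha.vm
  have i6 := ha.sw₁
  have i7 := ha.sw₂
  have i8 := ha.sn
  have i9 := ha.sm
  rw [hs] at i6 i7 i8 i9
  have hy' := (hs _ _).1 hy
  have t1 := ht v; have t2 := ht x; have t3 := ht w₁; have t4 := ht w₂; have t5 := ht n
  have t6 := ht m; have t7 := ht y
  have yv : t y ≠ t v := by omega
  have n1 := hcl y v yv
  have n2 := hcr y v yv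
  set n' := g.cr y v with hn'
  have n3 := hp _ _ n1
  have n4 := hp _ _ n2
  have t8 := ht n'
  have e1 : ¬ g.st w₂ y := by rw [hs]; omega
  have e2 : g.st n w₂ := by rw [hs]; omega
  have e3 : g.st n' w₂ := by rw [hs]; omega
  have y0p := h.pr_perp e1 e2
  have y0s := h.pr_st e1 e2
  have yy0 : g.pr w₂ n' (g.pr w₂ n y) = y := by
    rw [h.pr_pr e1 e2, h.pr_self e1 e3 n1]
  set y0 := g.pr w₂ n y with hy0
  have y0x : g.st y0 x := h.st_trans _ _ _ y0s hy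
  have y0x' := (hs _ _).1 y0x
  have f1 : ¬ g.st w₁ y0 := by rw [hs]; omega
  have f2 : g.st m w₁ := by rw [hs]; omega
  have f3 : g.st n' w₁ := by rw [hs]; omega
  have q1 := h.pr_st f1 f2
  have q1' := (hs _ _).1 q1
  have f4 : ¬ g.st w₂ (g.pr w₁ m y0) := by rw [hs]; omega
  have hφy : φ.1 y = g.pr w₂ n' (g.pr w₁ m y0) := by
    calc φ.1 y = φ.1 (g.pr w₂ n' y0) := by rw [yy0]
      _ = g.pr w₂ n' (φ.1 y0) := h.tw_pr htt.tw ha.vx ha.xw₂ ha.sw₂ n2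
          (by rw [hs]; omega) y0x
      _ = g.pr w₂ n' (g.pr w₂ n (g.pr w₁ m y0)) := by
          rw [hind y0 y0x y0p]; rfl
      _ = _ := h.pr_pr f4 e2
  have y1e : g.fm w₂ w₁ n' n y = g.pr w₁ n' y0 := rfl
  have r1 := h.fm_R1 (v := v) (x := x) (w₁ := w₂) (w₂ := w₁) (n := n') (m := n) (y := y)
    ⟨ha.vx, ha.xw₂, ha.xw₁, n2, ha.vn, ha.sw₂, ha.sw₁, by rw [hs]; omega, ha.sn⟩ hy n1
  rw [y1e] at r1
  have y1p := h.pr_perp f1 f3
  have y1s := h.pr_st f1 f3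
  have r2 := h.fm_R1 (v := v) (x := x) (w₁ := w₁) (w₂ := w₂) (n := n') (m := m)
    (y := g.pr w₁ n' y0)
    ⟨ha.vx, ha.xw₁, ha.xw₂, n2, ha.vm, ha.sw₁, ha.sw₂, by rw [hs]; omega, ha.sm⟩
    (h.st_trans _ _ _ y1s y0x) y1p
  have e5 : g.fm w₁ w₂ n' m (g.pr w₁ n' y0) = φ.1 y := by
    rw [hφy]
    unfold Inc.fm
    rw [h.pr_pr f1 f3]
  rw [e5] at r2
  exact Relation.EqvGen.trans _ _ _ (Relation.EqvGen.rel _ _ r1) (Relation.EqvGen.rel _ _ r2)

theorem gens.{v} : GensS.{v} := by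
  intro P g h v x φ hφ
  refine Subgroup.closure_induction (p := fun φ _ => ∀ y, g.st y x → g.sim y (φ.1 y))
    ?_ ?_ ?_ ?_ hφ
  · rintro φ ⟨w₁, w₂, n, m, hi⟩ y hy
    exact gens_gen h hi hy
  · intro y _
    exact Relation.EqvGen.refl _
  · intro φ ψ hφ hψ ih1 ih2 y hy
    have h1 := ih2 y hy
    have h2 : g.st (ψ.1 y) x := h.st_trans _ _ _ (h.st_symm _ _ ((h.nn_col hψ).tp y)) hy
    exact Relation.EqvGen.trans _ _ _ h1 (ih1 _ h2)
  · intro φ hφ ih y hy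
    have hc := h.col_inv (h.nn_col hφ)
    have h2 : g.st (φ⁻¹.1 y) x := h.st_trans _ _ _ (h.st_symm _ _ (hc.tp y)) hy
    have h3 := ih _ h2
    have h4 : φ.1 (φ⁻¹.1 y) = y := φ.1.apply_symm_apply y
    rw [h4] at h3
    exact Relation.EqvGen.symm _ _ h3

end Pool.Agent.FourGp.H95
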