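import Pool.Agent.Lib.MP_fb3619_al.H95.Step

/-! LINE: points on a line of a triangle. -/

universe u

namespace Pool.Agent.FourGp.H95

open Equiv

theorem line.{v} (hS : SimnS.{v}) (hG : GensS.{v}) (hE : EqvS.{v}) : LineS.{v} := by
  intro P g h hL a b c y hab hbc hac hby hyc
  obtain ⟨t, ht, hs, hp, hcl, hcr, hu⟩ := num h
  have sy := h.perp_symm
  have t1 := hp _ _ hab
  have t2 := hp _ _ hbc
  have t3 := hp _ _ hac
  have hst := (hs _ _).1 (h.sim_st hby)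
  obtain ⟨φ, hφ, ψ, hψ, e⟩ := hS P g h hL a c b b y hab (sy _ _ hbc)
    (by rw [hs]; exact t3) (h.st_refl b) hby
  have tφ := h.nn_tt hφ
  have tψ := h.nn_tt hψ
  -- `φ b` is on `c`
  have hc1 : φ.2 c = c := tφ.lns c hac
  have y1c : g.perp (φ.1 b) c := by
    have := (tφ.inc b c).1 hbc
    rwa [hc1] at this
  have s1 := (hs _ _).1 (tφ.tp b)
  have e1 : t (φ.1 b) ≠ t c := by omega
  have e2 : t y ≠ t c := by omega
  have l1 := hcl (φ.1 b) c e1
  have l2 := hcr (φ.1 b) c e1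
  have h1 : ψ.2 (g.cr (φ.1 b) c) = g.cr (φ.1 b) c := tψ.lns _ l2
  have h2 : ψ.1 c = c := tψ.pts c hbc
  have h3 : g.cr y c = g.cr (φ.1 b) c := by
    refine hu _ _ _ e2 ?_ l2
    rw [← e, ← h1]
    exact (tψ.inc _ _).1 l1
  have k1 := hp _ _ l2
  have k2 := hp _ _ l1
  have h4 : y = φ.1 b := by
    have a1 : g.cr (g.cr y c) c = y :=
      hu _ _ _ (by rw [h3]; exact fun e => k1 e.symm) (sy _ _ (hcl _ _ e2)) (sy _ _ hyc)
    have a2 : g.cr (g.cr (φ.1 b) c) c = φ.1 b :=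
      hu _ _ _ (fun e => k1 e.symm) (sy _ _ l1) (sy _ _ y1c)
    rw [← a1, h3, a2]
  have h5 : φ.2 a = g.cr y c := by
    have a1 : g.cr b c = a := hu _ _ _ t2 (sy _ _ hab) (sy _ _ hac)
    have a2 := h.col_cr tφ.toCol (x := b) (y := c) (by rw [hs]; exact t2)
    have a3 : φ.1 c = c := tφ.pts c hbc
    rw [a1, a3] at a2
    rw [a2, h4]
  refine ⟨⟨φ, hφ, h4.symm, h5⟩, ?_⟩
  have h6 := (hE P g h).2.1 a b φ hφ
  have h7 := hG P g h b a (φ.2, φ.1) h6 a (h.st_refl a)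
  have h8 : ((φ.2, φ.1) : Perm P × Perm P).1 a = g.cr y c := h5
  rwa [h8] at h7

end Pool.Agent.FourGp.H95
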