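import Pool.Agent.Lib.MP_fb3619_al.H95.Step

/-! REG: `NN x` is regular on every class. -/

universe u

namespace Pool.Agent.FourGp.H95

open Equiv

theorem reg_two {P : Type u} {g : Inc P} (h : g.IsGeo) (hS : StepS.{u}) (hL : g.LemF)
    (x : P) {y y' : P} (e : g.sim y y') : g.st y x → ∃ φ ∈ g.NN x, φ.1 y = y' := by
  induction e with
  | rel y y' e =>
    intro hy
    obtain ⟨n, l, l', z, h1, h2, h3, h4, h5, h6, h7, h8, h9⟩ := e
    obtain ⟨φ, hφ, hφy⟩ := hS P g h hL n l l' z y y' x h1 h2 h3 h4 h5 h6 h7 h8 h9 hy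
    exact ⟨φ, Subgroup.subset_closure ⟨_, hφ⟩, hφy⟩
  | refl y => exact fun _ => ⟨1, one_mem _, rfl⟩
  | symm y y' e ih =>
    intro hy'
    obtain ⟨φ, hφ, hφy⟩ := ih (h.st_trans _ _ _ (h.sim_st e) hy')
    refine ⟨φ⁻¹, inv_mem hφ, ?_⟩
    rw [← hφy]
    exact φ.1.symm_apply_apply y
  | trans y z w e f ih1 ih2 =>
    intro hy
    obtain ⟨φ, hφ, hφy⟩ := ih1 hy
    obtain ⟨ψ, hψ, hψy⟩ := ih2 (h.st_trans _ _ _ (h.st_symm _ _ (h.sim_st e)) hy)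
    refine ⟨ψ * φ, mul_mem hψ hφ, ?_⟩
    rw [← hψy, ← hφy]
    rfl

theorem reg.{v} (hN : NcomS.{v}) (hS : StepS.{v}) : RegS.{v} := by
  intro P g h hL
  refine ⟨fun x φ y y' hφ hy hfix e => ?_, fun x y y' hy e => reg_two h hS hL x e hy⟩
  obtain ⟨χ, hχ, hχy⟩ := reg_two h hS hL x e hy
  rw [← hχy, hN P g h hL x φ χ hφ hχ y hy, hfix]

end Pool.Agent.FourGp.H95
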