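import Pool.Agent.Lib.MP_fb3619_al.Iface

/-! STEP (3.1): an elementary step is realised by an element of `Nn (cr n x) x`. -/

universe u

namespace Pool.Agent.FourGp.H95

open Equiv

/-- Numerical form of the axioms. -/
theorem num {P : Type u} {g : Inc P} (h : g.IsGeo) : ∃ t : P → ℕ, (∀ x, t x < 3) ∧
    (∀ x y, g.st x y ↔ t x = t y) ∧ (∀ x y, g.perp x y → t x ≠ t y) ∧
    (∀ x y, t x ≠ t y → g.perp x (g.cr x y)) ∧ (∀ x y, t x ≠ t y → g.perp y (g.cr x y)) ∧
    (∀ x y z, t x ≠ t y → g.perp x z → g.perp y z → g.cr x y = z) := by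
  obtain ⟨t, ht, hs⟩ := h.label
  refine ⟨t, ht, hs, fun x y hp e => h.perp_st _ _ hp ((hs _ _).2 e),
    fun x y e => h.cr_l _ _ fun e' => e ((hs _ _).1 e'),
    fun x y e => h.cr_r _ _ fun e' => e ((hs _ _).1 e'),
    fun x y z e h1 h2 => (h.uniq _ _ _ (fun e' => e ((hs _ _).1 e')) h1 h2).symm⟩

theorem step.{v} : StepS.{v} := by
  intro P g h hL n l l' z y y' x hny hny' hyz hly hlz hl'z hl'y' hll' hln hyx
  obtain ⟨t, ht, hs, hp, hcl, hcr, hu⟩ := num h
  have sy := h.perp_symm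
  rw [hs] at hyz hll' hln hyx
  have t1 := hp _ _ hny
  have t2 := hp _ _ hly
  have t3 := hp _ _ hl'z
  have a1 := ht n; have a2 := ht l; have a3 := ht y
  have nx : t n ≠ t x := by omega
  have v1 := hcl n x nx
  have v2 := hcr n x nx
  set v := g.cr n x with hv
  have v3 := hp _ _ v1
  have v4 := hp _ _ v2
  have a4 := ht v
  have lx : t l ≠ t x := by omega
  have w1 := hcl l x lx
  have w2 := hcr l x lx
  set w := g.cr l x with hw
  have w3 := hp _ _ w1
  have w4 := hp _ _ w2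
  have a5 := ht w
  have lx' : t l' ≠ t x := by omega
  have u1 := hcl l' x lx'
  have u2 := hcr l' x lx'
  set w' := g.cr l' x with hw'
  have u3 := hp _ _ u1
  have u4 := hp _ _ u2
  have a6 := ht w'
  have zv : t z ≠ t v := by omega
  have m1 := hcl z v zv
  have m2 := hcr z v zv
  set m := g.cr z v with hm
  have m3 := hp _ _ m1
  have m4 := hp _ _ m2
  have a7 := ht m
  have adm : g.Adm v x w w' n m := by
    refine ⟨sy _ _ v2, w2, u2, sy _ _ v1, m2, ?_, ?_, ?_, ?_⟩ <;> rw [hs] <;> omega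
  obtain ⟨φ, hφ⟩ := hL v x w w' n m adm
  refine ⟨φ, Subgroup.subset_closure ⟨_, _, _, _, hφ⟩, ?_⟩
  rw [hφ.2.2 y ((hs _ _).2 hyx) (sy _ _ hny)]
  unfold Inc.fm Inc.pr
  rw [hu y w l (by omega) (sy _ _ hly) (sy _ _ w1), hu l m z (by omega) hlz (sy _ _ m1),
    hu z w' l' (by omega) (sy _ _ hl'z) (sy _ _ u1), hu l' n y' (by omega) hl'y' hny']

end Pool.Agent.FourGp.H95
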